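import Mathlib

set_option autoImplicit false

/-!
Perfect projective modules over integral group rings: definitions and the statements of the pieces.
-/

namespace Pool.Agent.K1H5.PP

open MonoidAlgebra

universe u v w

/-- `P` is generated as an abelian group by the elements `k z - z`, `k` in the subgroup `K`. For
`K = ⊤` this says that `P` is perfect. -/
def Gen {G : Type u} [Group G] (K : Subgroup G) (P : Type v) [AddCommGroup P]
    [Module (MonoidAlgebra ℤ G) P] : Prop :=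
  ∀ x : P, x ∈ AddSubgroup.closure
    {y : P | ∃ k ∈ K, ∃ z : P, y = (single k (1 : ℤ) : MonoidAlgebra ℤ G) • z - z}

/-- The sums of the coefficients of `a` over the cosets `K g` vanish. -/
def Van {G : Type u} [Group G] (K : Subgroup G) (a : MonoidAlgebra ℤ G) : Prop :=
  open Classical in
  ∀ g : G, ∑ h ∈ a.coeff.support.filter (fun h => h * g⁻¹ ∈ K), a.coeff h = 0

/-- restriction of scalars to a subgroup -/
@[reducible] noncomputable def resMod {G : Type u} [Group G] (H : Subgroup G) (P : Type v)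
    [AddCommGroup P] [Module (MonoidAlgebra ℤ G) P] : Module (MonoidAlgebra ℤ H) P :=
  Module.compHom P (mapDomainRingHom ℤ H.subtype)

/-- torsion-free, or an abelian `p`-group -/
def TFP (A : Type u) [Group A] : Prop :=
  (∀ a b : A, a * b = b * a) ∧
    ((∀ (a : A) (n : ℕ), 0 < n → a ^ n = 1 → a = 1) ∨
      ∃ p : ℕ, p.Prime ∧ ∀ a : A, ∃ k : ℕ, a ^ p ^ k = 1)

/-! ### Van -/

def S_VM : Prop := ∀ (G : Type u) [Group G] (K L : Subgroup G) (a : MonoidAlgebra ℤ G), K ≤ L →
  Van K a → Van L a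

def S_VD : Prop := ∀ (G : Type u) [Group G] (C : Set (Subgroup G)), C.Nonempty →
  IsChain (· ≤ ·) C → ∀ a : MonoidAlgebra ℤ G, (∀ K ∈ C, Van K a) → Van (sInf C) a

def S_VU : Prop := ∀ (G : Type u) [Group G] (C : Set (Subgroup G)), C.Nonempty →
  IsChain (· ≤ ·) C → ∀ a : MonoidAlgebra ℤ G, Van (sSup C) a → ∃ K ∈ C, Van K a

/-- `Van K a` iff `a` is in the right ideal generated by the `k - 1` -/
def S_VK : Prop := ∀ (G : Type u) [Group G] (K : Subgroup G) (a : MonoidAlgebra ℤ G),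
  Van K a ↔ a ∈ AddSubgroup.closure
    {y : MonoidAlgebra ℤ G | ∃ k ∈ K, ∃ z : MonoidAlgebra ℤ G,
      y = (single k (1 : ℤ) : MonoidAlgebra ℤ G) * z - z}

def S_VN : Prop := ∀ (G : Type u) [Group G] (K : Subgroup G) [K.Normal] (a : MonoidAlgebra ℤ G),
  Van K a ↔ mapDomainRingHom ℤ (QuotientGroup.mk' K) a = 0

/-! ### modules -/

/-- `Gen` in coordinates. -/
def S_GV : Prop := ∀ (G : Type u) [Group G] (P : Type v) [AddCommGroup P]
  [Module (MonoidAlgebra ℤ G) P] (s : P →ₗ[MonoidAlgebra ℤ G] (P →₀ MonoidAlgebra ℤ G)),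
  (∀ x : P, Finsupp.linearCombination (MonoidAlgebra ℤ G) id (s x) = x) →
  ∀ K : Subgroup G, Gen K P ↔ ∀ (x b : P), Van K (s x b)

/-- restriction of a projective module to a subgroup is projective -/
def S_RES : Prop := ∀ (G : Type u) [Group G] (P : Type v) [AddCommGroup P]
  [Module (MonoidAlgebra ℤ G) P], Module.Projective (MonoidAlgebra ℤ G) P → ∀ H : Subgroup G,
  @Module.Projective (MonoidAlgebra ℤ H) _ P _ (resMod H P)

/-- elements of augmentation one are not zero divisors in `ℤ[A]` -/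
def S_ONE : Prop := ∀ (A : Type u) [CommGroup A], TFP A → ∀ d r : MonoidAlgebra ℤ A,
  d.coeff.sum (fun _ c => c) = 1 → d * r = 0 → r = 0

/-- the step from `G` to `L` when `G / L` is abelian and torsion-free or a `p`-group -/
def S_B : Prop := ∀ (G : Type u) [Group G] (P : Type v) [AddCommGroup P]
  [Module (MonoidAlgebra ℤ G) P], Module.Projective (MonoidAlgebra ℤ G) P →
  Gen (⊤ : Subgroup G) P → ∀ (L : Subgroup G) [L.Normal], TFP (G ⧸ L) → Gen L P

/-- a group which is not perfect has a nontrivial abelian quotient that is torsion-free or a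
`p`-group -/
def S_QUO : Prop := ∀ (G : Type u) [Group G], commutator G ≠ ⊤ →
  ∃ (L : Subgroup G) (_ : L.Normal), L ≠ ⊤ ∧ TFP (G ⧸ L)

/-- **Main theorem 1.** -/
def S_M1 : Prop := ∀ (G : Type u) [Group G] (P : Type v) [AddCommGroup P]
  [Module (MonoidAlgebra ℤ G) P], Module.Projective (MonoidAlgebra ℤ G) P →
  ∀ K : Subgroup G, Gen K P → ∃ H : Subgroup G, H ≤ K ∧ ⁅H, H⁆ = H ∧ Gen H P

/-! ### idempotent matrices -/

/-- a nonzero idempotent matrix all of whose entries have augmentation zero -/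
def PI {G : Type u} [Group G] {n : ℕ} (E : Matrix (Fin n) (Fin n) (MonoidAlgebra ℤ G)) : Prop :=
  E * E = E ∧ E ≠ 0 ∧ ∀ i j, Van (⊤ : Subgroup G) (E i j)

/-- a perfect projective module gives an idempotent matrix -/
def S_BR1 : Prop := ∀ (G : Type u) [Group G] (P : Type v) [AddCommGroup P]
  [Module (MonoidAlgebra ℤ G) P], Module.Finite (MonoidAlgebra ℤ G) P →
  Module.Projective (MonoidAlgebra ℤ G) P → Nontrivial P → Gen (⊤ : Subgroup G) P →
  ∃ (n : ℕ) (E : Matrix (Fin n) (Fin n) (MonoidAlgebra ℤ G)), PI E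

/-- an idempotent matrix gives a projective module -/
def S_BR2 : Prop := ∀ (G : Type u) [Group G] (n : ℕ)
  (E : Matrix (Fin n) (Fin n) (MonoidAlgebra ℤ G)), E * E = E → E ≠ 0 →
  ∃ (P : Type u) (_ : AddCommGroup P) (_ : Module (MonoidAlgebra ℤ G) P),
    Module.Finite (MonoidAlgebra ℤ G) P ∧ Module.Projective (MonoidAlgebra ℤ G) P ∧
    Nontrivial P ∧ ∀ K : Subgroup G, (∀ i j, Van K (E i j)) → Gen K P

/-- passage to a finitely generated subgroup -/
def S_FG : Prop := ∀ (G : Type u) [Group G] (n : ℕ)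
  (E : Matrix (Fin n) (Fin n) (MonoidAlgebra ℤ G)), PI E →
  ∃ (H : Subgroup G) (_ : H.FG) (B : Matrix (Fin n) (Fin n) (MonoidAlgebra ℤ H)), PI B

/-- passage to a maximal quotient -/
def S_MAX : Prop := ∀ (G : Type u) [Group G] (n : ℕ)
  (E : Matrix (Fin n) (Fin n) (MonoidAlgebra ℤ G)), PI E →
  ∃ (L : Subgroup G) (_ : L.Normal) (B : Matrix (Fin n) (Fin n) (MonoidAlgebra ℤ (G ⧸ L))),
    PI B ∧ ∀ M : Subgroup (G ⧸ L), M.Normal → M ≠ ⊥ → ∀ i j, Van M (B i j)

/-- `g` has infinite order, is conjugate to some of its `p`-powers for every prime `p`, and to its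
`q ^ J`-th powers for all `q` prime to `m`, and is killed by all homomorphisms of its centraliser
to `ℚ` -/
def Divisible {G : Type u} [Group G] (g : G) : Prop :=
  (∀ n : ℕ, 0 < n → g ^ n ≠ 1) ∧ (∀ p : ℕ, p.Prime → ∃ j : ℕ, 1 ≤ j ∧ IsConj g (g ^ p ^ j)) ∧
    (∃ m J : ℕ, 0 < m ∧ 0 < J ∧ ∀ q : ℕ, q.Coprime m → IsConj g (g ^ q ^ J)) ∧
    ∀ (φ : Subgroup.centralizer {g} →* Multiplicative ℚ) (z : Subgroup.centralizer {g}),
      (z : G) = g → φ z = 1

/-- the trace argument -/
def S_TR : Prop := ∀ (G : Type u) [Group G] (n : ℕ)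
  (E : Matrix (Fin n) (Fin n) (MonoidAlgebra ℤ G)), E * E = E → E ≠ 0 →
  ∀ (M : Subgroup G) [M.Normal], (∀ i j, Van M (E i j)) → ∃ g ∈ M, Divisible g

end Pool.Agent.K1H5.PP
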