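import Mathlib
import Pool.Agent.K1H5.PP.Stm

set_option autoImplicit false

namespace Pool.Agent.K1H5.PP

open MonoidAlgebra

universe u v w

/-- `S_BR2` for normal subgroups -/
def S_BR2' : Prop := ∀ (G : Type u) [Group G] (n : ℕ)
  (E : Matrix (Fin n) (Fin n) (MonoidAlgebra ℤ G)), E * E = E → E ≠ 0 →
  ∃ (P : Type u) (_ : AddCommGroup P) (_ : Module (MonoidAlgebra ℤ G) P),
    Module.Finite (MonoidAlgebra ℤ G) P ∧ Module.Projective (MonoidAlgebra ℤ G) P ∧
    Nontrivial P ∧ ∀ K : Subgroup G, K.Normal → (∀ i j, Van K (E i j)) → Gen K P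

end Pool.Agent.K1H5.PP

namespace Pool.Agent.K1H5.PP

open MonoidAlgebra

universe u v w

/-- stronger form of `S_BR1` -/
def S_BR1' : Prop := ∀ (G : Type u) [Group G] (P : Type v) [AddCommGroup P]
  [Module (MonoidAlgebra ℤ G) P], Module.Finite (MonoidAlgebra ℤ G) P →
  Module.Projective (MonoidAlgebra ℤ G) P → Nontrivial P →
  ∃ (n : ℕ) (E : Matrix (Fin n) (Fin n) (MonoidAlgebra ℤ G)), E * E = E ∧ E ≠ 0 ∧
    ∀ K : Subgroup G, Gen K P → ∀ i j, Van K (E i j)

end Pool.Agent.K1H5.PP
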