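import Mathlib
import Pool.Agent.K1H5.PP.Stm2

set_option autoImplicit false

namespace Pool.Agent.K1H5.PP

open MonoidAlgebra

universe u v w

lemma gen_chain (hVD : S_VD.{u}) (hGV : S_GV.{u, v}) {G : Type u} [Group G] {P : Type v}
    [AddCommGroup P] [Module (MonoidAlgebra ℤ G) P] [hP : Module.Projective (MonoidAlgebra ℤ G) P]
    (C : Set (Subgroup G)) (hne : C.Nonempty) (hC : IsChain (· ≤ ·) C)
    (h : ∀ K ∈ C, Gen K P) : Gen (sInf C) P := by
  obtain ⟨s, hs⟩ := hP.out
  rw [hGV G P s hs]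
  intro x b
  exact hVD G C hne hC _ fun K hK => (hGV G P s hs K).1 (h K hK) x b

lemma exists_minimal (hVD : S_VD.{u}) (hGV : S_GV.{u, v}) {G : Type u} [Group G] {P : Type v}
    [AddCommGroup P] [Module (MonoidAlgebra ℤ G) P] [Module.Projective (MonoidAlgebra ℤ G) P]
    (K : Subgroup G) (hK : Gen K P) :
    ∃ H : Subgroup G, H ≤ K ∧ Gen H P ∧ ∀ H' : Subgroup G, H' ≤ H → Gen H' P → H' = H := by
  have h := zorn_le_nonempty₀ (α := (Subgroup G)ᵒᵈ)
    {H : (Subgroup G)ᵒᵈ | Gen (OrderDual.ofDual H) P} ?_ (OrderDual.toDual K) hK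
  · obtain ⟨m, h1, h2⟩ := h
    refine ⟨OrderDual.ofDual m, h1, h2.1, fun H' hH' hg => ?_⟩
    have h3 := h2.2 (y := OrderDual.toDual H') hg hH'
    exact le_antisymm hH' h3
  · intro c hc hchain y hy
    refine ⟨OrderDual.toDual (sInf {H : Subgroup G | OrderDual.toDual H ∈ c}), ?_, ?_⟩
    · refine gen_chain hVD hGV _ ⟨OrderDual.ofDual y, hy⟩ ?_ ?_
      · intro a ha b hb hab
        have h4 := hchain ha hb (fun h5 => hab (OrderDual.toDual.injective h5))
        rcases h4 with h4 | h4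
        · exact Or.inr h4
        · exact Or.inl h4
      · intro K' hK'
        exact hc hK'
    · intro z hz
      change sInf {H : Subgroup G | OrderDual.toDual H ∈ c} ≤ OrderDual.ofDual z
      exact sInf_le hz

lemma gen_res {G : Type u} [Group G] {P : Type v} [AddCommGroup P]
    [Module (MonoidAlgebra ℤ G) P] (H : Subgroup G) (L : Subgroup H) :
    @Gen H _ L P _ (resMod H P) ↔ Gen (L.map H.subtype) P := by
  let _ := resMod H P
  have key : ∀ (k : H) (z : P), (single k (1 : ℤ) : MonoidAlgebra ℤ H) • z =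
      (single (k : G) (1 : ℤ) : MonoidAlgebra ℤ G) • z := by
    intro k z
    change (mapDomainRingHom ℤ H.subtype (single k (1 : ℤ))) • z = _
    congr 1
    simp
  have hset : {y : P | ∃ k ∈ L, ∃ z : P, y = (single k (1 : ℤ) : MonoidAlgebra ℤ H) • z - z} =
      {y : P | ∃ k ∈ L.map H.subtype, ∃ z : P,
        y = (single k (1 : ℤ) : MonoidAlgebra ℤ G) • z - z} := by
    ext y
    constructor
    · rintro ⟨k, hk, z, rfl⟩
      exact ⟨k, ⟨k, hk, rfl⟩, z, by rw [key]⟩
    · rintro ⟨_, ⟨k, hk, rfl⟩, z, rfl⟩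
      exact ⟨k, hk, z, by rw [key]; rfl⟩
  unfold Gen
  rw [hset]

theorem t_M1 (hVD : S_VD.{u}) (hGV : S_GV.{u, v}) (hRES : S_RES.{u, v}) (hB : S_B.{u, v})
    (hQ : S_QUO.{u}) : S_M1.{u, v} := by
  intro G _ P _ _ hP K hK
  obtain ⟨H, hHK, hH, hmin⟩ := exists_minimal hVD hGV K hK
  refine ⟨H, hHK, ?_, hH⟩
  by_contra hne
  have hcomm : commutator H ≠ ⊤ := by
    intro h1
    apply hne
    have h2 := congrArg (Subgroup.map H.subtype) h1
    rw [commutator_def, Subgroup.map_commutator, ← MonoidHom.range_eq_map,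
      Subgroup.range_subtype] at h2
    exact h2
  obtain ⟨L, hL, hLt, hT⟩ := hQ H hcomm
  have h1 : Gen ((⊤ : Subgroup H).map H.subtype) P := by
    have : (⊤ : Subgroup H).map H.subtype = H := by
      rw [← MonoidHom.range_eq_map, Subgroup.range_subtype]
    rw [this]
    exact hH
  have h2 := (gen_res H ⊤).2 h1
  have h3 := @hB H _ P _ (resMod H P) (hRES G P hP H) h2 L hL hT
  have h4 := (gen_res H L).1 h3
  have h5 := hmin _ (Subgroup.map_subtype_le L) h4
  apply hLt
  rw [eq_top_iff]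
  intro x _
  have h6 : (x : G) ∈ L.map H.subtype := by rw [h5]; exact x.2
  obtain ⟨y, hy, hyx⟩ := h6
  have : y = x := Subtype.ext hyx
  rwa [← this]

end Pool.Agent.K1H5.PP
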