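import Mathlib
import Pool.Agent.K1H5.PP.M1

set_option autoImplicit false

namespace Pool.Agent.K1H5.PP

open MonoidAlgebra

universe u v w

/-- `P` is a nonzero finitely generated perfect projective `ℤG`-module. -/
def PerfProj (G : Type u) [Group G] (P : Type v) [AddCommGroup P]
    [Module (MonoidAlgebra ℤ G) P] : Prop :=
  Module.Finite (MonoidAlgebra ℤ G) P ∧ Module.Projective (MonoidAlgebra ℤ G) P ∧ Nontrivial P ∧
    Gen (⊤ : Subgroup G) P

/-- There is a nonzero finitely generated perfect projective `ℤG`-module. -/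
def Ex (G : Type u) [Group G] : Prop :=
  ∃ (P : Type u) (_ : AddCommGroup P) (_ : Module (MonoidAlgebra ℤ G) P), PerfProj G P

/-- `M` is a minimal normal subgroup. -/
def MinNormal {G : Type u} [Group G] (M : Subgroup G) : Prop :=
  M.Normal ∧ M ≠ ⊥ ∧ ∀ N : Subgroup G, N.Normal → N ≤ M → N ≠ ⊥ → N = M

/-- `G` has no subgroups other than `1` inside `N` that are perfect. -/
def NoPerfect {G : Type u} [Group G] (N : Subgroup G) : Prop :=
  ∀ H : Subgroup G, H ≤ N → ⁅H, H⁆ = H → H = ⊥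

/-- The conclusion for a reduced example. -/
def Reduced (G : Type u) [Group G] (P : Type v) [AddCommGroup P]
    [Module (MonoidAlgebra ℤ G) P] : Prop :=
  PerfProj G P ∧ ∀ M : Subgroup G, M.Normal → M ≠ ⊥ →
    Gen M P ∧ (∃ g ∈ M, Divisible g) ∧ ∃ M₀ : Subgroup G, M₀ ≤ M ∧ MinNormal M₀ ∧ ⁅M₀, M₀⁆ = M₀

lemma Gen.mono {G : Type u} [Group G] {K L : Subgroup G} (h : K ≤ L) {P : Type v} [AddCommGroup P]
    [Module (MonoidAlgebra ℤ G) P] (hK : Gen K P) : Gen L P := by
  intro x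
  refine AddSubgroup.closure_mono ?_ (hK x)
  rintro y ⟨k, hk, z, rfl⟩
  exact ⟨k, h hk, z, rfl⟩

lemma Gen.bot {G : Type u} [Group G] {P : Type v} [AddCommGroup P]
    [Module (MonoidAlgebra ℤ G) P] (h : Gen (⊥ : Subgroup G) P) (x : P) : x = 0 := by
  have h1 := h x
  have h2 : AddSubgroup.closure {y : P | ∃ k ∈ (⊥ : Subgroup G), ∃ z : P,
      y = (single k (1 : ℤ) : MonoidAlgebra ℤ G) • z - z} ≤ ⊥ := by
    rw [AddSubgroup.closure_le]
    rintro y ⟨k, hk, z, rfl⟩
    rw [Subgroup.mem_bot] at hk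
    subst hk
    have : (single (1 : G) (1 : ℤ) : MonoidAlgebra ℤ G) = 1 := rfl
    rw [this, one_smul, sub_self]
    exact AddSubgroup.mem_bot.2 rfl
  exact AddSubgroup.mem_bot.1 (h2 h1)

section

variable {G : Type u} [Group G]

/-- a module generated over a subgroup without perfect subgroups vanishes -/
lemma zero_of_noPerfect (h1 : S_M1.{u, v}) {P : Type v} [AddCommGroup P]
    [Module (MonoidAlgebra ℤ G) P] (hP : Module.Projective (MonoidAlgebra ℤ G) P)
    (K : Subgroup G) (hK : Gen K P) (hn : NoPerfect K) (x : P) : x = 0 := by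
  obtain ⟨H, hHK, hH, hg⟩ := h1 G P hP K hK
  have := hn H hHK hH
  subst this
  exact hg.bot x

/-- the normal closure of a perfect subgroup is perfect -/
lemma perfect_normalClosure (H : Subgroup G) (hH : ⁅H, H⁆ = H) :
    ⁅Subgroup.normalClosure (H : Set G), Subgroup.normalClosure (H : Set G)⁆ =
      Subgroup.normalClosure (H : Set G) := by
  apply le_antisymm
  · exact Subgroup.commutator_le_left _ _
  · have hN : (⁅Subgroup.normalClosure (H : Set G), Subgroup.normalClosure (H : Set G)⁆).Normal :=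
      inferInstance
    apply Subgroup.normalClosure_le_normal
    have h1 : H ≤ Subgroup.normalClosure (H : Set G) := Subgroup.le_normalClosure
    intro x hx
    have hx' : x ∈ (⁅H, H⁆ : Subgroup G) := by rw [hH]; exact hx
    exact Subgroup.commutator_mono h1 h1 hx'

/-- the trace condition for a normal subgroup -/
lemma divisible_of_gen (hBR : S_BR1'.{u, v}) (hTR : S_TR.{u}) {P : Type v} [AddCommGroup P]
    [Module (MonoidAlgebra ℤ G) P] (hP : PerfProj G P) (M : Subgroup G) (hM : M.Normal)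
    (hg : Gen M P) : ∃ g ∈ M, Divisible g := by
  obtain ⟨n, E, h1, h2, h3⟩ := hBR G P hP.1 hP.2.1 hP.2.2.1
  exact hTR G n E h1 h2 M (h3 M hg)

/-- part 1 for finitely generated modules -/
theorem perfect_radical (h1 : S_M1.{u, v}) (hBR : S_BR1'.{u, v}) (hTR : S_TR.{u})
    {P : Type v} [AddCommGroup P] [Module (MonoidAlgebra ℤ G) P] (hP : PerfProj G P) :
    ∃ M : Subgroup G, M.Normal ∧ ⁅M, M⁆ = M ∧ Gen M P ∧ ∃ g ∈ M, Divisible g := by
  obtain ⟨H, _, hH, hg⟩ := h1 G P hP.2.1 ⊤ hP.2.2.2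
  have hgM : Gen (Subgroup.normalClosure (H : Set G)) P := hg.mono Subgroup.le_normalClosure
  exact ⟨Subgroup.normalClosure (H : Set G), inferInstance, perfect_normalClosure H hH, hgM,
    divisible_of_gen hBR hTR hP _ inferInstance hgM⟩

lemma van_map_top (hVN : S_VN.{u}) (hVM : S_VM.{u}) {H : Type u} [Group H] (N : Subgroup G)
    [N.Normal] (a : MonoidAlgebra ℤ G) (ha : Van (⊤ : Subgroup G) a) :
    Van (⊤ : Subgroup (G ⧸ N)) (mapDomainRingHom ℤ (QuotientGroup.mk' N) a) := by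
  rw [hVN] at ha ⊢
  have h1 : mapDomainRingHom ℤ ((QuotientGroup.mk' (⊤ : Subgroup (G ⧸ N))).comp
      (QuotientGroup.mk' N)) a = 0 := by
    have h2 : (⊤ : Subgroup G) ≤ ((QuotientGroup.mk' (⊤ : Subgroup (G ⧸ N))).comp
        (QuotientGroup.mk' N)).ker := by
      intro x _
      rw [MonoidHom.mem_ker, MonoidHom.comp_apply, QuotientGroup.mk'_apply]
      exact (QuotientGroup.eq_one_iff _).2 (Subgroup.mem_top _)
    have h3 : (QuotientGroup.mk' (⊤ : Subgroup (G ⧸ N))).comp (QuotientGroup.mk' N) =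
        (QuotientGroup.lift (⊤ : Subgroup G) ((QuotientGroup.mk' (⊤ : Subgroup (G ⧸ N))).comp
        (QuotientGroup.mk' N)) h2).comp (QuotientGroup.mk' (⊤ : Subgroup G)) := by
      ext x
      rfl
    rw [h3, mapDomainRingHom_comp, RingHom.comp_apply, ha, map_zero]
  rw [mapDomainRingHom_comp, RingHom.comp_apply] at h1
  exact h1

/-- the extension theorem -/
theorem ext_thm (h1 : S_M1.{u, u}) (hVM : S_VM.{u}) (hVN : S_VN.{u}) (hBR : S_BR1'.{u, u})
    (hBR2 : S_BR2'.{u}) (N : Subgroup G) [N.Normal] (hN : NoPerfect N) (hG : Ex G) :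
    Ex (G ⧸ N) := by
  obtain ⟨P, _, _, hP⟩ := hG
  obtain ⟨n, E, hE, hE0, hEv⟩ := hBR G P hP.1 hP.2.1 hP.2.2.1
  have htop := hEv ⊤ hP.2.2.2
  let B := E.map (mapDomainRingHom ℤ (QuotientGroup.mk' N))
  have hB : B * B = B := by
    change E.map _ * E.map _ = E.map _
    rw [← Matrix.map_mul, hE]
  by_cases hB0 : B = 0
  · exfalso
    obtain ⟨P', _, _, hf, hp, hnt, hgen⟩ := hBR2 G n E hE hE0
    have h2 : Gen N P' := by
      refine hgen N inferInstance fun i j => ?_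
      rw [hVN]
      exact congrFun (congrFun hB0 i) j
    obtain ⟨x, hx⟩ := exists_ne (0 : P')
    exact hx (zero_of_noPerfect h1 hp N h2 hN x)
  · obtain ⟨P', _, _, hf, hp, hnt, hgen⟩ := hBR2 (G ⧸ N) n B hB hB0
    refine ⟨P', _, _, hf, hp, hnt, hgen ⊤ inferInstance fun i j => ?_⟩
    exact van_map_top (H := G) hVN hVM N (E i j) (htop i j)

lemma exists_minNormal (h1 : S_M1.{u, v}) (hVD : S_VD.{u}) (hGV : S_GV.{u, v}) {P : Type v}
    [AddCommGroup P] [Module (MonoidAlgebra ℤ G) P] (hP : PerfProj G P)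
    (hall : ∀ M : Subgroup G, M.Normal → M ≠ ⊥ → Gen M P) (M : Subgroup G) (hM : M.Normal)
    (hM0 : M ≠ ⊥) : ∃ M₀ : Subgroup G, M₀ ≤ M ∧ MinNormal M₀ ∧ ⁅M₀, M₀⁆ = M₀ := by
  have hproj := hP.2.1
  have hnt := hP.2.2.1
  have hbot : ¬ Gen (⊥ : Subgroup G) P := by
    intro h
    obtain ⟨x, hx⟩ := exists_ne (0 : P)
    exact hx (h.bot x)
  have h := zorn_le_nonempty₀ (α := (Subgroup G)ᵒᵈ)
    {H : (Subgroup G)ᵒᵈ | (OrderDual.ofDual H).Normal ∧ OrderDual.ofDual H ≠ ⊥} ?_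
    (OrderDual.toDual M) ⟨hM, hM0⟩
  · obtain ⟨m, hm1, hm2⟩ := h
    have hmin : MinNormal (OrderDual.ofDual m) := by
      refine ⟨hm2.1.1, hm2.1.2, fun N hN hle hne => ?_⟩
      exact le_antisymm hle (hm2.2 (y := OrderDual.toDual N) ⟨hN, hne⟩ hle)
    refine ⟨OrderDual.ofDual m, hm1, hmin, ?_⟩
    by_contra hne
    have hnorm : (OrderDual.ofDual m).Normal := hmin.1
    have hle : ⁅OrderDual.ofDual m, OrderDual.ofDual m⁆ ≤ OrderDual.ofDual m :=
      Subgroup.commutator_le_left _ _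
    have h2 : ⁅OrderDual.ofDual m, OrderDual.ofDual m⁆ = ⊥ := by
      by_contra h3
      exact hne (hmin.2.2 _ inferInstance hle h3)
    have h3 : NoPerfect (OrderDual.ofDual m) := by
      intro H hH hHH
      rw [eq_bot_iff, ← h2, ← hHH]
      exact Subgroup.commutator_mono hH hH
    obtain ⟨x, hx⟩ := exists_ne (0 : P)
    exact hx (zero_of_noPerfect h1 hproj _ (hall _ hmin.1 hmin.2.1) h3 x)
  · intro c hc hchain y hy
    have hg : Gen (sInf {H : Subgroup G | OrderDual.toDual H ∈ c}) P := by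
      refine gen_chain hVD hGV _ ⟨OrderDual.ofDual y, hy⟩ ?_ ?_
      · intro a ha b hb hab
        have h4 := hchain ha hb (fun h5 => hab (OrderDual.toDual.injective h5))
        rcases h4 with h4 | h4
        · exact Or.inr h4
        · exact Or.inl h4
      · intro K' hK'
        exact hall K' (hc hK').1 (hc hK').2
    refine ⟨OrderDual.toDual (sInf {H : Subgroup G | OrderDual.toDual H ∈ c}), ⟨?_, ?_⟩, ?_⟩
    · constructor
      intro x hx g
      change x ∈ sInf {H : Subgroup G | OrderDual.toDual H ∈ c} at hx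
      change g * x * g⁻¹ ∈ sInf {H : Subgroup G | OrderDual.toDual H ∈ c}
      rw [Subgroup.mem_sInf] at hx ⊢
      intro K hK
      exact (hc hK).1.conj_mem x (hx K hK) g
    · intro h5
      apply hbot
      rw [← h5]
      exact hg
    · intro z hz
      change sInf {H : Subgroup G | OrderDual.toDual H ∈ c} ≤ OrderDual.ofDual z
      exact sInf_le hz

/-- the reduction -/
theorem red_thm (h1 : S_M1.{u, u}) (hVD : S_VD.{u}) (hGV : S_GV.{u, u}) (hBR : S_BR1'.{u, u})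
    (hBR2 : S_BR2'.{u}) (hFG : S_FG.{u}) (hMAX : S_MAX.{u}) (hTR : S_TR.{u}) (hG : Ex G) :
    ∃ (H : Subgroup G) (_ : H.FG) (L : Subgroup H) (_ : L.Normal) (P : Type u)
      (_ : AddCommGroup P) (_ : Module (MonoidAlgebra ℤ (H ⧸ L)) P), Reduced (H ⧸ L) P := by
  obtain ⟨P, _, _, hP⟩ := hG
  obtain ⟨n, E, hE, hE0, hEv⟩ := hBR G P hP.1 hP.2.1 hP.2.2.1
  obtain ⟨H, hH, B, hB⟩ := hFG G n E ⟨hE, hE0, hEv ⊤ hP.2.2.2⟩
  obtain ⟨L, hL, C, hC, hCM⟩ := hMAX H n B hB
  obtain ⟨P', i1, i2, hf, hp, hnt, hgen⟩ := hBR2 (H ⧸ L) n C hC.1 hC.2.1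
  have hPP : PerfProj (H ⧸ L) P' := ⟨hf, hp, hnt, hgen ⊤ inferInstance hC.2.2⟩
  have hall : ∀ M : Subgroup (H ⧸ L), M.Normal → M ≠ ⊥ → Gen M P' := fun M hM hM0 =>
    hgen M hM (hCM M hM hM0)
  exact ⟨H, hH, L, hL, P', i1, i2, hPP, fun M hM hM0 => ⟨hall M hM hM0,
    divisible_of_gen hBR hTR hPP M hM (hall M hM hM0), exists_minNormal h1 hVD hGV hPP hall M hM hM0⟩⟩

end

end Pool.Agent.K1H5.PP
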