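import Mathlib
import Pool.Agent.K1H5.PP.Main0

set_option autoImplicit false

namespace Pool.Agent.K1H5.PP

open MonoidAlgebra

universe u v w

/-- A complete chain of normal subgroups (a normal series of arbitrary order type). -/
def Series {G : Type u} [Group G] (C : Set (Subgroup G)) : Prop :=
  IsChain (· ≤ ·) C ∧ (∀ K ∈ C, K.Normal) ∧ ⊥ ∈ C ∧ ⊤ ∈ C ∧
    ∀ D : Set (Subgroup G), D ⊆ C → D.Nonempty → sInf D ∈ C ∧ sSup D ∈ C

/-- A factor of the chain. -/
def Jump {G : Type u} [Group G] (C : Set (Subgroup G)) (L M : Subgroup G) : Prop :=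
  L ∈ C ∧ M ∈ C ∧ L < M ∧ ∀ K ∈ C, K ≤ L ∨ M ≤ K

section

variable {G : Type u} [Group G]

lemma van_bot (hVN : S_VN.{u}) (a : MonoidAlgebra ℤ G) (h : Van (⊥ : Subgroup G) a) : a = 0 := by
  rw [hVN] at h
  have hinj : Function.Injective (mapDomainRingHom ℤ (QuotientGroup.mk' (⊥ : Subgroup G))) := by
    have h1 : (QuotientGroup.quotientBot.toMonoidHom).comp (QuotientGroup.mk' (⊥ : Subgroup G)) =
        MonoidHom.id G := by
      ext x
      rfl
    intro x y hxy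
    have h2 := congrArg (mapDomainRingHom ℤ (QuotientGroup.quotientBot (G := G)).toMonoidHom) hxy
    rw [← RingHom.comp_apply, ← RingHom.comp_apply, ← mapDomainRingHom_comp, h1,
      mapDomainRingHom_id] at h2
    exact h2
  apply hinj
  rw [h, map_zero]

/-- the quotient map kills `a` if `Van M a`, in steps -/
lemma van_quot (hVN : S_VN.{u}) (L M : Subgroup G) [L.Normal] [M.Normal] (hLM : L ≤ M)
    (a : MonoidAlgebra ℤ G) (ha : Van M a) :
    Van (M.map (QuotientGroup.mk' L)) (mapDomainRingHom ℤ (QuotientGroup.mk' L) a) := by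
  have hN : (M.map (QuotientGroup.mk' L)).Normal :=
    Subgroup.Normal.map inferInstance _ (QuotientGroup.mk'_surjective L)
  rw [hVN] at ha ⊢
  have h2 : M ≤ ((QuotientGroup.mk' (M.map (QuotientGroup.mk' L))).comp
      (QuotientGroup.mk' L)).ker := by
    intro x hx
    rw [MonoidHom.mem_ker, MonoidHom.comp_apply, QuotientGroup.mk'_apply]
    exact (QuotientGroup.eq_one_iff _).2 ⟨x, hx, rfl⟩
  have h3 : (QuotientGroup.mk' (M.map (QuotientGroup.mk' L))).comp (QuotientGroup.mk' L) =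
      (QuotientGroup.lift M ((QuotientGroup.mk' (M.map (QuotientGroup.mk' L))).comp
      (QuotientGroup.mk' L)) h2).comp (QuotientGroup.mk' M) := by
    ext x
    rfl
  have h1 : mapDomainRingHom ℤ ((QuotientGroup.mk' (M.map (QuotientGroup.mk' L))).comp
      (QuotientGroup.mk' L)) a = 0 := by
    rw [h3, mapDomainRingHom_comp, RingHom.comp_apply, ha, map_zero]
  rw [mapDomainRingHom_comp, RingHom.comp_apply] at h1
  exact h1

lemma exists_jump (hVD : S_VD.{u}) (hVU : S_VU.{u}) (hVM : S_VM.{u}) (hVN : S_VN.{u}) {n : ℕ}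
    (E : Matrix (Fin n) (Fin n) (MonoidAlgebra ℤ G)) (hE : PI E) (C : Set (Subgroup G))
    (hC : Series C) : ∃ L M : Subgroup G, Jump C L M ∧ (∀ i j, Van M (E i j)) ∧
      ¬ ∀ i j, Van L (E i j) := by
  classical
  obtain ⟨hch, hnorm, hbot, htop, hcl⟩ := hC
  let U : Set (Subgroup G) := {K | K ∈ C ∧ ∀ i j, Van K (E i j)}
  let D : Set (Subgroup G) := {K | K ∈ C ∧ ¬ ∀ i j, Van K (E i j)}
  have hU : U.Nonempty := ⟨⊤, htop, hE.2.2⟩
  have hD : D.Nonempty := by
    refine ⟨⊥, hbot, fun h => hE.2.1 ?_⟩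
    ext1 i j
    exact van_bot hVN _ (h i j)
  have hUC : U ⊆ C := fun K hK => hK.1
  have hDC : D ⊆ C := fun K hK => hK.1
  have hMv : ∀ i j, Van (sInf U) (E i j) := fun i j =>
    hVD G U hU (hch.mono hUC) _ fun K hK => hK.2 i j
  have hLv : ¬ ∀ i j, Van (sSup D) (E i j) := by
    intro h
    choose K hKD hK using fun q : Fin n × Fin n =>
      hVU G D hD (hch.mono hDC) (E q.1 q.2) (h q.1 q.2)
    have hfin : ∃ K0 ∈ D, ∀ q : Fin n × Fin n, K q ≤ K0 := by
      have : ∀ T : Finset (Fin n × Fin n), ∃ K0 ∈ D, ∀ q ∈ T, K q ≤ K0 := by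
        intro T
        induction T using Finset.induction_on with
        | empty =>
          obtain ⟨K0, h0⟩ := hD
          exact ⟨K0, h0, fun q hq => absurd hq (Finset.notMem_empty q)⟩
        | insert a T _ ih =>
          obtain ⟨K0, h0, h1⟩ := ih
          rcases hch.total (hDC h0) (hDC (hKD a)) with h2 | h2
          · refine ⟨K a, hKD a, fun q hq => ?_⟩
            rcases Finset.mem_insert.1 hq with rfl | hq
            · exact le_rfl
            · exact (h1 q hq).trans h2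
          · refine ⟨K0, h0, fun q hq => ?_⟩
            rcases Finset.mem_insert.1 hq with rfl | hq
            · exact h2
            · exact h1 q hq
      obtain ⟨K0, h0, h1⟩ := this Finset.univ
      exact ⟨K0, h0, fun q => h1 q (Finset.mem_univ q)⟩
    obtain ⟨K0, h0, h1⟩ := hfin
    exact h0.2 fun i j => hVM G (K (i, j)) K0 _ (h1 (i, j)) (hK (i, j))
  have hMC := (hcl U hUC hU).1
  have hLC := (hcl D hDC hD).2
  refine ⟨sSup D, sInf U, ⟨hLC, hMC, ?_, ?_⟩, hMv, hLv⟩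
  · rcases hch.total hLC hMC with h | h
    · refine lt_of_le_of_ne h fun h1 => hLv ?_
      rw [h1]
      exact hMv
    · exact absurd (fun i j => hVM G _ _ _ h (hMv i j)) hLv
  · intro K hK
    by_cases h : ∀ i j, Van K (E i j)
    · exact Or.inr (sInf_le ⟨hK, h⟩)
    · exact Or.inl (le_sSup ⟨hK, h⟩)

/-- **Series theorem.** -/
theorem ser_thm (h1 : S_M1.{u, u}) (hVD : S_VD.{u}) (hVU : S_VU.{u}) (hVM : S_VM.{u})
    (hVN : S_VN.{u}) (hBR : S_BR1'.{u, u}) (hBR2 : S_BR2'.{u}) (hTR : S_TR.{u}) (hG : Ex G)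
    (C : Set (Subgroup G)) (hC : Series C) :
    ∃ (L M : Subgroup G) (_ : L.Normal) (P : Type u) (_ : AddCommGroup P)
      (_ : Module (MonoidAlgebra ℤ (G ⧸ L)) P), Jump C L M ∧ PerfProj (G ⧸ L) P ∧
      (∃ H : Subgroup (G ⧸ L), H ≤ M.map (QuotientGroup.mk' L) ∧ H ≠ ⊥ ∧ ⁅H, H⁆ = H ∧ Gen H P) ∧
      ∃ g ∈ M.map (QuotientGroup.mk' L), Divisible g := by
  obtain ⟨P, _, _, hP⟩ := hG
  obtain ⟨n, E, hE, hE0, hEv⟩ := hBR G P hP.1 hP.2.1 hP.2.2.1
  obtain ⟨L, M, hJ, hM, hL⟩ := exists_jump hVD hVU hVM hVN E ⟨hE, hE0, hEv ⊤ hP.2.2.2⟩ C hC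
  have hLn : L.Normal := hC.2.1 L hJ.1
  have hMn : M.Normal := hC.2.1 M hJ.2.1
  have hMn' : (M.map (QuotientGroup.mk' L)).Normal :=
    Subgroup.Normal.map inferInstance _ (QuotientGroup.mk'_surjective L)
  let B := E.map (mapDomainRingHom ℤ (QuotientGroup.mk' L))
  have hB : B * B = B := by
    change E.map _ * E.map _ = E.map _
    rw [← Matrix.map_mul, hE]
  have hB0 : B ≠ 0 := by
    intro h0
    apply hL
    intro i j
    rw [hVN]
    exact congrFun (congrFun h0 i) j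
  obtain ⟨P', i1, i2, hf, hp, hnt, hgen⟩ := hBR2 (G ⧸ L) n B hB hB0
  have hBM : ∀ i j, Van (M.map (QuotientGroup.mk' L)) (B i j) := fun i j =>
    van_quot hVN L M hJ.2.2.1.le (E i j) (hM i j)
  have hgM : Gen (M.map (QuotientGroup.mk' L)) P' := hgen _ hMn' hBM
  have hPP : PerfProj (G ⧸ L) P' := ⟨hf, hp, hnt, hgM.mono le_top⟩
  obtain ⟨H, hHM, hH, hg⟩ := h1 (G ⧸ L) P' hp _ hgM
  refine ⟨L, M, hLn, P', i1, i2, hJ, hPP, ⟨H, hHM, ?_, hH, hg⟩, hTR (G ⧸ L) n B hB hB0 _ hBM⟩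
  rintro rfl
  obtain ⟨x, hx⟩ := exists_ne (0 : P')
  exact hx (hg.bot x)

end

end Pool.Agent.K1H5.PP
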