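import Mathlib
import Pool.Agent.K1H5.PP.Ser
import Pool.Agent.K1H40.PP.Van1
import Pool.Agent.K1H46.PP.Van2
import Pool.Agent.K1H64.PP.GV
import Pool.Agent.K1H74.PP.Res
import Pool.Agent.K1H99.PP.One
import Pool.Agent.K1H7.PP.B
import Pool.Agent.K1H89.PP.Quo
import Pool.Agent.K1H75.PP.Br
import Pool.Agent.K1H85.PP.Fg
import Pool.Agent.K1H94.PP.MAX
import Pool.Agent.K1H36.PP.TR

set_option autoImplicit false

namespace Pool.Agent.K1H5.PP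

open MonoidAlgebra

universe u v w

/-- `N` is a perfect normal subgroup of `G` inside `M` with `P = I_N P`, containing a divisible
element. -/
def Core (G : Type u) [Group G] (P : Type v) [AddCommGroup P] [Module (MonoidAlgebra ℤ G) P]
    (M : Subgroup G) : Prop :=
  ∃ N : Subgroup G, N ≤ M ∧ N.Normal ∧ ⁅N, N⁆ = N ∧ Gen N P ∧ ∃ g ∈ N, Divisible g

/-- the minimal example -/
def MinExample (G : Type u) [Group G] (P : Type v) [AddCommGroup P]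
    [Module (MonoidAlgebra ℤ G) P] : Prop :=
  PerfProj G P ∧ ∀ M : Subgroup G, M.Normal → M ≠ ⊥ →
    Gen M P ∧ ∃ M₀ : Subgroup G, M₀ ≤ M ∧ MinNormal M₀ ∧ ⁅M₀, M₀⁆ = M₀ ∧ ∃ g ∈ M₀, Divisible g

theorem m1 : S_M1.{u, v} :=
  t_M1 K1H40.PP.t_VD (K1H64.PP.t_GV K1H46.PP.t_VK) K1H74.PP.t_RES
    (K1H7.PP.t_B K1H99.PP.t_ONE (K1H64.PP.t_GV K1H46.PP.t_VK) K1H46.PP.t_VN) K1H89.PP.t_QUO

theorem core_thm (G : Type u) [Group G] (P : Type v) [AddCommGroup P]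
    [Module (MonoidAlgebra ℤ G) P] (hP : PerfProj G P) (M : Subgroup G) (hM : M.Normal)
    (hg : Gen M P) : Core G P M := by
  obtain ⟨H, hHM, hH, hgH⟩ := m1 G P hP.2.1 M hg
  have hle : H ≤ Subgroup.normalClosure (H : Set G) := Subgroup.le_normalClosure
  have hgN : Gen (Subgroup.normalClosure (H : Set G)) P := hgH.mono hle
  refine ⟨Subgroup.normalClosure (H : Set G), ?_, inferInstance, perfect_normalClosure H hH, hgN,
    divisible_of_gen (K1H75.PP.t_BR1' K1H46.PP.t_VK) (K1H36.PP.t_TR K1H46.PP.t_VN) hP _ inferInstance hgN⟩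
  exact Subgroup.normalClosure_le_normal hHM

theorem ser (G : Type u) [Group G] (hG : Ex G) (C : Set (Subgroup G)) (hC : Series C) :
    ∃ (L M : Subgroup G) (_ : L.Normal) (P : Type u) (_ : AddCommGroup P)
      (_ : Module (MonoidAlgebra ℤ (G ⧸ L)) P), Jump C L M ∧ PerfProj (G ⧸ L) P ∧
      Core (G ⧸ L) P (M.map (QuotientGroup.mk' L)) := by
  obtain ⟨L, M, hL, P, i1, i2, hJ, hP, ⟨H, hHM, _, _, hg⟩, _⟩ :=
    ser_thm m1 K1H40.PP.t_VD K1H40.PP.t_VU K1H40.PP.t_VM K1H46.PP.t_VN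
      (K1H75.PP.t_BR1' K1H46.PP.t_VK) (K1H75.PP.t_BR2' K1H46.PP.t_VK K1H46.PP.t_VN)
      (K1H36.PP.t_TR K1H46.PP.t_VN) hG C hC
  have hMn : M.Normal := hC.2.1 M hJ.2.1
  exact ⟨L, M, hL, P, i1, i2, hJ, hP, core_thm _ _ hP _
    (Subgroup.Normal.map inferInstance _ (QuotientGroup.mk'_surjective L)) (hg.mono hHM)⟩

theorem red (G : Type u) [Group G] (hG : Ex G) :
    ∃ (H : Subgroup G) (_ : H.FG) (L : Subgroup H) (_ : L.Normal) (P : Type u)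
      (_ : AddCommGroup P) (_ : Module (MonoidAlgebra ℤ (H ⧸ L)) P), MinExample (H ⧸ L) P := by
  obtain ⟨H, hH, L, hL, P, i1, i2, hP, hall⟩ :=
    red_thm m1 K1H40.PP.t_VD (K1H64.PP.t_GV K1H46.PP.t_VK) (K1H75.PP.t_BR1' K1H46.PP.t_VK)
      (K1H75.PP.t_BR2' K1H46.PP.t_VK K1H46.PP.t_VN) K1H85.PP.t_FG
      (K1H94.PP.t_MAX K1H40.PP.t_VM K1H40.PP.t_VU K1H46.PP.t_VN) (K1H36.PP.t_TR K1H46.PP.t_VN) hG
  refine ⟨H, hH, L, hL, P, i1, i2, hP, fun M hM hM0 => ⟨(hall M hM hM0).1, ?_⟩⟩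
  obtain ⟨_, _, M₀, hle, hmin, hperf⟩ := hall M hM hM0
  exact ⟨M₀, hle, hmin, hperf, (hall M₀ hmin.1 hmin.2.1).2.1⟩

end Pool.Agent.K1H5.PP
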